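import Mathlib
import Pool.Agent.CPT.StmtsD

set_option autoImplicit false

/-! Row ESD of the squad CPT: essential variables from the derivatives (characteristic 0). -/

namespace Pool.Agent.CPT.H41

open MvPolynomial

/-- chain rule for a substitution with values in a polynomial ring -/
theorem chain {E S : Type} [Field E] [CommRing S] [Algebra E S] {n : ℕ}
    (f : Fin n → Polynomial S) (F : MvPolynomial (Fin n) E) :
    Polynomial.derivative (aeval f F) =
      ∑ i, Polynomial.derivative (f i) * aeval f (pderiv i F) := by
  induction F using MvPolynomial.induction_on with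
  | C a =>
    rw [aeval_C]
    simp only [pderiv_C, map_zero, mul_zero, Finset.sum_const_zero]
    rw [IsScalarTower.algebraMap_apply E S (Polynomial S), Polynomial.algebraMap_eq,
      Polynomial.derivative_C]
  | add p q hp hq =>
    rw [map_add, map_add, hp, hq, ← Finset.sum_add_distrib]
    apply Finset.sum_congr rfl
    intro i _
    rw [map_add, map_add, mul_add]
  | mul_X p j hp =>
    rw [map_mul, aeval_X, Polynomial.derivative_mul, hp, Finset.sum_mul]
    have h1 : ∀ i, Polynomial.derivative (f i) * aeval f (pderiv i (p * X j)) =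
        Polynomial.derivative (f i) * aeval f (pderiv i p) * f j +
          (if i = j then aeval f p * Polynomial.derivative (f j) else 0) := by
      intro i
      rw [pderiv_mul, map_add, map_mul, map_mul, aeval_X, pderiv_X]
      by_cases hij : i = j
      · subst hij
        rw [if_pos rfl, Pi.single_eq_same, map_one]
        ring
      · rw [if_neg hij, Pi.single_eq_of_ne (Ne.symm hij), map_zero]
        ring
    rw [Finset.sum_congr rfl (fun i _ => h1 i), Finset.sum_add_distrib,
      Finset.sum_ite_eq' , if_pos (Finset.mem_univ j)]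

/-- moving along directions which annihilate `F` -/
theorem deriv0 {E S : Type} [Field E] [CommRing S] [Algebra E S] {n : ℕ}
    (F : MvPolynomial (Fin n) E) (N : Fin n → Fin n → E)
    (hN : ∀ k, ∑ i, N i k • pderiv i F = pderiv k F) (x : Fin n → S) :
    Polynomial.derivative (aeval (fun i => Polynomial.C (x i) +
      Polynomial.X * Polynomial.C (∑ k, N i k • x k - x i)) F) = 0 := by
  obtain ⟨f, hf⟩ : ∃ f : Fin n → Polynomial S, f = fun i => Polynomial.C (x i) +
      Polynomial.X * Polynomial.C (∑ k, N i k • x k - x i) := ⟨_, rfl⟩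
  rw [← hf, chain]
  have h1 : ∀ i, Polynomial.derivative (f i) = Polynomial.C (∑ k, N i k • x k - x i) := by
    intro i
    rw [hf]
    simp only [Polynomial.derivative_add, Polynomial.derivative_C, zero_add,
      Polynomial.derivative_mul, Polynomial.derivative_X, one_mul, mul_zero, add_zero]
  have h2 : ∀ i, Polynomial.derivative (f i) * aeval f (pderiv i F) =
      ∑ k, Polynomial.C (x k) * (aeval f (N i k • pderiv i F)) -
        Polynomial.C (x i) * aeval f (pderiv i F) := by
    intro i
    rw [h1, Polynomial.C_sub, sub_mul, map_sum, Finset.sum_mul]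
    congr 1
    apply Finset.sum_congr rfl
    intro k _
    rw [← Polynomial.smul_C, smul_mul_assoc, map_smul (aeval f), mul_smul_comm]
  rw [Finset.sum_congr rfl (fun i _ => h2 i), Finset.sum_sub_distrib, Finset.sum_comm,
    sub_eq_zero]
  apply Finset.sum_congr rfl
  intro k _
  rw [← Finset.mul_sum, ← map_sum, hN]

theorem eval_f {E S : Type} [Field E] [CommRing S] [Algebra E S] {n : ℕ}
    (F : MvPolynomial (Fin n) E) (x v : Fin n → S) (y : S) :
    Polynomial.eval y (aeval (fun i => Polynomial.C (x i) +
      Polynomial.X * Polynomial.C (v i)) F) = aeval (fun i => x i + y * v i) F := by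
  have h4 : ((Polynomial.aeval (R := S) y).restrictScalars E).comp
      (aeval (R := E) (fun i => Polynomial.C (x i) + Polynomial.X * Polynomial.C (v i))) =
      aeval (R := E) (fun i => x i + y * v i) := by
    apply MvPolynomial.algHom_ext
    intro i
    rw [AlgHom.comp_apply, aeval_X, aeval_X]
    change Polynomial.aeval y (Polynomial.C (x i) + Polynomial.X * Polynomial.C (v i)) = _
    rw [Polynomial.coe_aeval_eq_eval, Polynomial.eval_add, Polynomial.eval_C,
      Polynomial.eval_mul, Polynomial.eval_X, Polynomial.eval_C]
  have h5 := DFunLike.congr_fun h4 F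
  rw [AlgHom.comp_apply] at h5
  rw [← h5]
  change _ = Polynomial.aeval y (aeval _ F)
  rw [Polynomial.coe_aeval_eq_eval]

theorem move0 {E S : Type} [Field E] [CommRing S] [Algebra E S] [CharZero S] [IsDomain S] {n : ℕ}
    (F : MvPolynomial (Fin n) E) (N : Fin n → Fin n → E)
    (hN : ∀ k, ∑ i, N i k • pderiv i F = pderiv k F) (x : Fin n → S) :
    aeval (fun i => ∑ k, N i k • x k) F = aeval x F := by
  have hd := deriv0 F N hN x
  have hc : ∀ y : S, Polynomial.eval y (aeval (fun i => Polynomial.C (x i) +
      Polynomial.X * Polynomial.C (∑ k, N i k • x k - x i)) F) =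
      Polynomial.eval 0 (aeval (fun i => Polynomial.C (x i) +
      Polynomial.X * Polynomial.C (∑ k, N i k • x k - x i)) F) := by
    intro y
    have h3 := Polynomial.derivative_eq_zero.1 hd
    obtain ⟨c, hc⟩ := Polynomial.natDegree_eq_zero.1 h3
    rw [← hc, Polynomial.eval_C, Polynomial.eval_C]
  have h6 := hc 1
  rw [eval_f F x (fun i => ∑ k, N i k • x k - x i),
    eval_f F x (fun i => ∑ k, N i k • x k - x i)] at h6
  have h7 : (fun i => x i + (1 : S) * (∑ k, N i k • x k - x i)) = fun i => ∑ k, N i k • x k := by
    funext i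
    rw [one_mul, add_sub_cancel]
  have h8 : (fun i => x i + (0 : S) * (∑ k, N i k • x k - x i)) = x := by
    funext i
    rw [zero_mul, add_zero]
  rw [h7, h8] at h6
  exact h6

theorem move {E : Type} [Field E] [CharZero E] {n : ℕ} (F : MvPolynomial (Fin n) E)
    (N : Fin n → Fin n → E)
    (hN : ∀ k, ∑ i, N i k • pderiv i F = pderiv k F) :
    aeval (fun i => ∑ k, N i k • (X k : MvPolynomial (Fin n) E)) F = F := by
  rw [move0 F N hN X, aeval_X_left_apply]

theorem esd : EsdStmt := by
  intro E _ _ n r F hr
  have hfin : Module.Finite E (Submodule.span E (Set.range fun i => pderiv i F)) :=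
    Module.Finite.span_of_finite E (Set.finite_range _)
  let V := Submodule.span E (Set.range fun i => pderiv i F)
  let b := Module.finBasis E V
  let bb : Fin r → MvPolynomial (Fin n) E := fun j =>
    if h : (j : ℕ) < Module.finrank E V then (b ⟨j, h⟩ : MvPolynomial (Fin n) E) else 0
  have hbV : ∀ j, bb j ∈ Submodule.span E (Set.range fun i => pderiv i F) := by
    intro j
    change (if h : (j : ℕ) < Module.finrank E V then (b ⟨j, h⟩ : MvPolynomial (Fin n) E)
      else 0) ∈ _
    by_cases h : (j : ℕ) < Module.finrank E V
    · rw [dif_pos h]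
      exact (b ⟨j, h⟩).2
    · rw [dif_neg h]
      exact Submodule.zero_mem _
  have hsp : ∀ k, pderiv k F ∈ Submodule.span E (Set.range bb) := by
    intro k
    have hk : pderiv k F ∈ V := Submodule.subset_span ⟨k, rfl⟩
    have h1 := b.sum_repr ⟨pderiv k F, hk⟩
    have h2 : pderiv k F = ∑ m, b.repr ⟨pderiv k F, hk⟩ m • (b m : MvPolynomial (Fin n) E) := by
      have h3 := congrArg (Submodule.subtype V) h1
      rw [map_sum] at h3
      exact h3.symm
    rw [h2]
    apply Submodule.sum_mem
    intro m _
    apply Submodule.smul_mem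
    apply Submodule.subset_span
    refine ⟨⟨m, lt_of_lt_of_le m.2 hr⟩, ?_⟩
    change (if h : (m : ℕ) < Module.finrank E V then (b ⟨m, h⟩ : MvPolynomial (Fin n) E)
      else 0) = _
    rw [dif_pos m.2]
  choose B hB using fun j => (Submodule.mem_span_range_iff_exists_fun E).1 (hbV j)
  choose A hA using fun k => (Submodule.mem_span_range_iff_exists_fun E).1 (hsp k)
  refine ⟨fun j k => A k j, aeval (fun i => ∑ j, B j i • X j) F, ?_⟩
  have h1 := move F (fun i k => ∑ j, B j i * A k j) (by
    intro k
    rw [← hA k]
    have h2 : ∀ i, (∑ j, B j i * A k j) • pderiv i F =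
        ∑ j, A k j • (B j i • pderiv i F) := by
      intro i
      rw [Finset.sum_smul]
      apply Finset.sum_congr rfl
      intro j _
      rw [smul_smul, mul_comm (A k j)]
    rw [Finset.sum_congr rfl (fun i _ => h2 i), Finset.sum_comm]
    apply Finset.sum_congr rfl
    intro j _
    rw [← Finset.smul_sum, hB j])
  have h3 : (aeval (R := E) fun j => ∑ k, C (A k j) * (X k : MvPolynomial (Fin n) E)).comp
      (aeval (R := E) (fun i => ∑ j, B j i • X j)) =
        aeval (R := E) (fun i => ∑ k, (∑ j, B j i * A k j) • X k) := by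
    apply MvPolynomial.algHom_ext
    intro i
    rw [AlgHom.comp_apply, aeval_X, aeval_X, map_sum]
    have h4 : ∀ j, (aeval (R := E) fun j => ∑ k, C (A k j) * (X k : MvPolynomial (Fin n) E))
        (B j i • X j) = ∑ k, (B j i * A k j) • X k := by
      intro j
      rw [map_smul, aeval_X, Finset.smul_sum]
      apply Finset.sum_congr rfl
      intro k _
      rw [← MvPolynomial.smul_eq_C_mul, smul_smul]
    rw [Finset.sum_congr rfl (fun j _ => h4 j), Finset.sum_comm]
    apply Finset.sum_congr rfl
    intro k _
    rw [Finset.sum_smul]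
  have h5 := DFunLike.congr_fun h3 F
  rw [AlgHom.comp_apply] at h5
  rw [h5, h1]

end Pool.Agent.CPT.H41
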